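import Pool.Agent.MP_8be872_ag.H94.AC3

/-! From invariants of `GL(V)` to the flag at the origin. -/

namespace Pool.Agent.MP_8be872_ag.H94

open Finset H38 H56 H63 MvPolynomial
open scoped Matrix

variable {Q : Quiv} {w v D : Fin Q.n → ℕ} {J : Type} [Fintype J] [DecidableEq J]
  {f : J → MvPolynomial (Ix Q w v D J) ℂ} {φ : J → G}

theorem Dif_eq : (Dif : OpQ Q w v D J) = vf (dG rad) + ∑ j, gn (ev j) := rfl

/-- The ambient cochains. -/
noncomputable def WW (f : J → MvPolynomial (Ix Q w v D J) ℂ) (φ : J → G) (γ : G) (p : Bool) :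
    Submodule ℂ (Sp (Ix Q w v D J) (Ix Q w v D J)) :=
  ((mono fun μ => cech (AlG radF) ∅ univ μ ∧ od μ = p) ⊓
    mono fun μ => ws (wt bw φ) μ - γ ∈ Lat v) ⊓ InvT f

section G

variable (hG : Good (AlG rad) (wt bw φ) (dG rad) 0 f)
include hG

theorem dG_par (g : Ix Q w v D J ⊕ Ix Q w v D J) :
    dG rad g ∈ words fun μ => sup (AlG rad) μ ∧ od μ = xor g.isRight true :=
  words_le (fun _ h => ⟨h.1, by rw [h.2.2, Bool.xor_true]⟩) (hG.dw g)

theorem Dif_gn {g : Ix Q w v D J ⊕ Ix Q w v D J} (hg : ¬ AlG rad g) :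
    Dif * gn g = sg g.isRight • (gn g * Dif) := by
  have h1 := vf_gn_zero (fun g => words_le (fun _ h => h.2) (dG_par hG g)) (hG.dz g hg)
  rw [Bool.true_and] at h1
  rw [Dif_eq, add_mul, mul_add, smul_add, h1, sum_mul, mul_sum, smul_sum]
  congr 1
  exact sum_congr rfl fun j _ => gn_mul_gn _ _

theorem dr_Dif {g : Ix Q w v D J ⊕ Ix Q w v D J} (hg : ¬ AlG rad g) (hg' : ∀ j, g ≠ ev j) :
    dr g * Dif = sg g.isRight • (Dif * dr g) := by
  have h1 := dr_vf g fun g' => words_le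
    (fun μ h => And.intro (by_contra fun h' => hg (h.1 g h')) h.2) (dG_par hG g')
  rw [Bool.and_true] at h1
  rw [Dif_eq, add_mul, mul_add, smul_add, h1, sum_mul, mul_sum, smul_sum]
  congr 1
  refine sum_congr rfl fun j _ => ?_
  rw [dr_mul_gn, if_neg (hg' j), add_zero]
  exact congrArg (fun b => sg b • _) (Bool.and_true _)

theorem Dif_cech {p : Bool} {x : Sp (Ix Q w v D J) (Ix Q w v D J)}
    (hx : x ∈ mono fun μ => cech (AlG radF) ∅ univ μ ∧ od μ = p) :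
    Dif x ∈ mono fun μ => cech (AlG radF) ∅ univ μ ∧ od μ = !p := by
  rw [Dif_eq, LinearMap.add_apply, LinearMap.sum_apply]
  refine add_mem ?_ (sum_mem fun j _ => gn_mem _ hx ?_)
  · refine vf_mem (Pg := fun g μ => AlG rad g ∧ sup (AlG rad) μ ∧ od μ = xor g.isRight true)
      (fun g => ?_) hx ?_
    · by_cases hg : AlG rad g
      · exact words_le (fun _ h => ⟨hg, h⟩) (dG_par hG g)
      · rw [hG.dz g hg]
        exact zero_mem _
    · rintro g μ ν ⟨h3, h4⟩ ⟨h5, h6, h7⟩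
      refine ⟨cech_of h3 (fun g' h8 => ?_) fun j h8 => ?_, ?_⟩
      · by_cases h9 : ν g' = 0
        · rw [Pi.add_apply, h9, zero_add] at h8
          exact Or.inr ⟨by rw [Pi.add_apply]; omega, id⟩
        · exact Or.inl ((alG_radF _).2 (Or.inl (h6 _ h9)))
      · have h9 : g ≠ ev j := fun e => alG_ev rad j (e ▸ h5)
        rw [Pi.add_apply, Pi.single_eq_of_ne' h9] at h8
        rw [Pi.add_apply]
        omega
      · rw [od_add, od_single] at h4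
        rw [od_add, h7, ← h4]
        cases od μ <;> cases g.isRight <;> rfl
  · rintro μ ⟨⟨h3, -, i, h5⟩, h4⟩
    have h6 : ∀ g, μ g ≠ 0 → (μ + Pi.single (ev j) 1 : _ → ℕ) g ≠ 0 := fun g h => by
      rw [Pi.add_apply]
      omega
    refine ⟨⟨fun g hg => ?_, by simp, i, h6 _ h5⟩, ?_⟩
    · by_cases h7 : g = ev j
      · exact Or.inr (Or.inr ⟨j, by simp, h7⟩)
      · rw [Pi.add_apply, Pi.single_eq_of_ne h7, add_zero] at hg
        exact (h3 g hg).imp_right fun h => h.imp_left fun ⟨i, h, h'⟩ => ⟨i, h, h6 _ h'⟩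
    · rw [od_add, od_single, h4]
      exact Bool.xor_true _

theorem cE_rel (a : Nb Q w v D) {x : Sp (Ix Q w v D J) (Ix Q w v D J)} (hx : x ∈ rel f) :
    eu (cE φ a) x ∈ rel f := by
  refine eu_rel (fun j => ?_) (fun j => mono_le (fun μ h => ?_) (hG.fw j)) hx
  · rw [cE_val φ a (Or.inr (Or.inr ⟨j, rfl⟩)), hG.wtE]
    simp
  · rw [ws_xi (φ := φ) (a := a) fun g hg => cE_val φ a (Or.inl (h.1 g hg)), h.2,
      cE_val φ a (Or.inr (Or.inl ⟨j, rfl⟩)), map_neg, Int.cast_neg]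

variable (h2 : Glob2At Q w v D J)
include h2

theorem lie_Dif {a b : Nb Q w v D} (h : LevP Q w v D rad a b) :
    Commute (lie (J := J) rad a b) Dif := by
  rw [Dif_eq]
  exact Commute.add_right (h2.comm rad (Or.inl rfl) a b h)
    (Commute.sum_right _ _ _ fun j _ => lie_gn h2 _ _ (alG_ev _ _))

theorem Dif_EE (γ : G) {a b : Bas Q v} (h : a.1 = b.1) :
    Commute Dif (EE φ γ a b : OpQ Q w v D J) := by
  rw [EE_eq h2]
  refine (lie_Dif hG h2 (a := iv a) (b := iv b) ⟨h, rfl, Or.inr ⟨rfl, rfl⟩⟩).symm.sub_right ?_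
  split_ifs
  · refine Zc_comm _ _ _ fun j => ⟨?_, ?_⟩
    · exact (Dif_gn hG (alG_tv _ j)).trans (one_smul ℂ _)
    · exact ((dr_Dif hG (alG_tv _ j) (by simp)).trans (one_smul ℂ _)).symm
  · exact Commute.zero_right _

theorem EE_rel (hc : Cover f φ) (γ : G) {a b : Bas Q v} (h : a.1 = b.1)
    {x : Sp (Ix Q w v D J) (Ix Q w v D J)} (hx : x ∈ rel f) : EE φ γ a b x ∈ rel f := by
  by_cases hab : a = b
  · subst hab
    rw [EE_same]
    exact sub_mem (cE_rel hG _ hx) (Submodule.smul_mem _ _ hx)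
  · rw [EE_ne _ _ _ _ hab]
    exact lie_rel h2 (fun j => (hc.1 j).2.2 (iv a) (iv b) (by simpa using hab)
      ⟨h, one_lt_two, one_lt_two⟩ le_rfl) hx

end G

theorem offT_lev {a b : Nb Q w v D} (h : offT a b) : LevP Q w v D rad a b :=
  ⟨h.2.1, h.2.2.1.trans h.2.2.2.symm, Or.inl h.2.2.1⟩

theorem gc_cech (r : Subtype (RootP Q v)) {p : Bool} {x : Sp (Ix Q w v D J) (Ix Q w v D J)}
    (hx : x ∈ mono fun μ => cech (AlG radF) ∅ univ μ ∧ od μ = p) :
    gn (gc r) x ∈ (mono fun μ => cech (AlG radF) ∅ univ μ ∧ od μ = !p) ∧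
      dr (gc r) x ∈ mono fun μ => cech (AlG radF) ∅ univ μ ∧ od μ = !p := by
  refine ⟨gn_mem _ hx ?_, dr_mem _ hx ?_⟩
  · rintro μ ⟨h3, h4⟩
    refine ⟨cech_of h3 (fun g hg => ?_) fun j hj => by rw [Pi.add_apply]; omega, ?_⟩
    · by_cases h7 : g = gc r
      · exact Or.inl ((alG_radF _).2 (Or.inr ⟨r, h7⟩))
      · rw [Pi.add_apply, Pi.single_eq_of_ne h7, add_zero] at hg
        exact Or.inr ⟨hg, id⟩
    · rw [od_add, od_single, h4]
      exact Bool.xor_true _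
  · rintro μ ⟨h3, h4⟩
    refine ⟨cech_of h3 (fun g hg => Or.inr ⟨by rw [Pi.add_apply]; omega, id⟩) fun j hj => ?_, ?_⟩
    · rwa [Pi.add_apply, Pi.single_eq_of_ne' (gg_ne_ev _ _ _ _), add_zero] at hj
    · rw [od_add, od_single] at h4
      rw [← h4]
      change od μ = !(xor (od μ) true)
      cases od μ <;> rfl

theorem gc_lat (γ : G) (r : Subtype (RootP Q v)) {x : Sp (Ix Q w v D J) (Ix Q w v D J)}
    (hx : x ∈ mono fun μ => ws (wt bw φ) μ - γ ∈ Lat v) :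
    gn (gc r) x ∈ (mono fun μ => ws (wt bw φ) μ - γ ∈ Lat v) ∧
      dr (gc r) x ∈ mono fun μ => ws (wt bw φ) μ - γ ∈ Lat v := by
  have h1 : wt bw φ (gc r : Ix Q w v D J ⊕ Ix Q w v D J) ∈ Lat v := by
    rw [wt_gc]
    exact sub_mem (bw_mem _) (bw_mem _)
  refine ⟨gn_mem _ hx fun μ h => ?_, dr_mem _ hx fun μ h => ?_⟩
  · rw [ws_add, ws_single, add_sub_right_comm]
    exact add_mem h h1
  · rw [ws_add, ws_single, add_sub_right_comm] at h
    simpa using sub_mem h h1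

theorem mem_all {I : Type} {P : I → (Ix Q w v D J ⊕ Ix Q w v D J → ℕ) → Prop}
    {x : Sp (Ix Q w v D J) (Ix Q w v D J)} (h : ∀ i, x ∈ mono (P i)) :
    x ∈ mono fun μ => ∀ i, P i μ :=
  mem_mono.2 fun S m hm i => mem_mono.1 (h i) S m hm

theorem mem_and {P P' : (Ix Q w v D J ⊕ Ix Q w v D J → ℕ) → Prop}
    {x : Sp (Ix Q w v D J) (Ix Q w v D J)} (h : x ∈ mono P) (h' : x ∈ mono P') :
    x ∈ mono fun μ => P μ ∧ P' μ := by
  rw [mono_and]
  exact ⟨h, h'⟩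

theorem eu_sub_zero {c : Ix Q w v D J ⊕ Ix Q w v D J → ℂ} {a : ℂ}
    {x : Sp (Ix Q w v D J) (Ix Q w v D J)} :
    (eu c - a • 1 : OpQ Q w v D J) x = 0 ↔ x ∈ mono fun μ => ws c μ = a := by
  rw [LinearMap.sub_apply, sub_eq_zero]
  exact ⟨fun h => mem_of_eu h, fun h => eu_apply h⟩

theorem ws_of_xi {γ : G} {μ : Ix Q w v D J ⊕ Ix Q w v D J → ℕ}
    (h : ws (wt bw φ) μ - γ ∈ Lat v) (h' : ∀ a : Bas Q v,
      ((xi (iv a : Nb Q w v D) (ws (wt bw φ) μ) : ℤ) : ℂ) = (xi (iv a : Nb Q w v D) γ : ℤ)) :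
    ws (wt bw φ) μ = γ :=
  sub_eq_zero.1 (lat_zero (w := w) (D := D) h fun a => by
    rw [map_sub, sub_eq_zero]
    exact_mod_cast h' a)

theorem mem_Z (γ : G) (p : Bool) (x : Sp (Ix Q w v D J) (Ix Q w v D J)) :
    x ∈ ZZ (AlG radF) (wt bw φ) ∅ univ γ p ⊓ InvT f ↔ x ∈ WW f φ γ p ∧
      ∀ a, totW (RootP Q v) (EE φ γ) (fun r => gn (gc r)) (fun r => dr (gc r)) a x = 0 := by
  simp only [totW_eq, eu_sub_zero]
  constructor
  · rintro ⟨h1, h2⟩
    refine ⟨⟨⟨mono_le (fun μ h => ⟨h.1, h.2.2⟩) h1, mono_le (fun μ h => ?_) h1⟩, h2⟩,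
      fun a => mono_le (fun μ h => ?_) h1⟩
    · rw [h.2.1, sub_self]
      exact zero_mem _
    · rw [ws_xi fun g hg => cW_val φ a (cech_sup h.1 g hg), h.2.1]
  · rintro ⟨⟨⟨h1, h2⟩, h3⟩, h4⟩
    refine ⟨mono_le (fun μ h => ⟨h.1.1.1, ws_of_xi h.1.2 fun a => ?_, h.1.1.2⟩)
      (mem_and (mem_and h1 h2) (mem_all h4)), h3⟩
    rw [← h.2 a, ws_xi fun g hg => cW_val φ a (cech_sup h.1.1.1 g hg)]

theorem mem_Z' (h2 : Glob2At Q w v D J) (γ : G) (p : Bool) (x : Sp (Ix Q w v D J) (Ix Q w v D J)) :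
    x ∈ ZZ (AlG rad) (wt bw φ) ∅ univ γ p ⊓
      ⨅ (a) (b) (_ : a ≠ b ∧ LevP Q w v D rad a b), (rel f).comap (lie rad a b) ↔
    x ∈ WW f φ γ p ∧ (∀ r : Subtype (RootP Q v), dr (gc r) x = 0) ∧ (∀ a, EE φ γ a a x = 0) ∧
      ∀ a b, a.1 = b.1 → EE φ γ a b x ∈ rel f := by
  simp only [Submodule.mem_inf, Submodule.mem_iInf, Submodule.mem_comap]
  constructor
  · rintro ⟨h1, h3⟩
    have h4 : ∀ a, EE φ γ a a x = 0 := fun a => by
      rw [EE_same, eu_sub_zero]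
      refine mono_le (fun μ h => ?_) h1
      rw [ws_xi fun g hg => cE_val φ _ (cech_sup h.1 g hg), h.2.1]
    refine ⟨⟨⟨mono_le (fun μ h => ⟨cech_of h.1 (fun g hg => Or.inr ⟨hg, fun h' =>
      (alG_radF g).2 (Or.inl h')⟩) fun _ h => h, h.2.2⟩) h1, mono_le (fun μ h => ?_) h1⟩,
      (mem_invT h2).2 fun a b h => h3 a b ⟨h.1, offT_lev h⟩⟩,
      fun r => dr_eq_zero _ (mono_le (fun μ h => by_contra fun h' => ?_) h1), h4, fun a b h => ?_⟩
    · rw [h.2.1, sub_self]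
      exact zero_mem _
    · rcases cech_sup h.1 _ h' with h5 | ⟨j, h5⟩ | ⟨j, h5⟩
      exacts [alG_gc r h5, gg_ne_tv _ _ _ _ h5, gg_ne_ev _ _ _ _ h5]
    · by_cases hab : a = b
      · subst hab
        rw [h4]
        exact zero_mem _
      · rw [EE_ne _ _ _ _ hab]
        exact h3 _ _ ⟨by simpa using hab, h, rfl, Or.inr ⟨rfl, rfl⟩⟩
  · rintro ⟨⟨⟨h1, h3⟩, h4⟩, h5, h6, h7⟩
    simp only [EE_same, eu_sub_zero] at h6
    have h8 : ∀ r : Subtype (RootP Q v), x ∈ mono fun μ => μ (gc r) = 0 := fun r => by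
      refine mono_le (fun μ h => ?_) (mem_of_eu (c := Pi.single (gc r) 1) (a := 0) (x := x) ?_)
      · rw [ws_pi] at h
        exact_mod_cast h
      · rw [eu_single, Module.End.mul_apply, h5, map_zero, zero_smul]
    refine ⟨mono_le (fun μ h => ?_) (mem_and (mem_and h1 h3) (mem_and (mem_all h6) (mem_all h8))),
      fun a b h => ?_⟩
    · have h9 : cech (AlG rad) ∅ univ μ := cech_of h.1.1.1 (fun g hg => Or.inr ⟨hg, fun h' =>
        ((alG_radF g).1 h').resolve_right fun ⟨r, hr⟩ => hg (hr ▸ h.2.2 r)⟩) fun _ h => h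
      refine ⟨h9, ws_of_xi h.1.2 fun a => ?_, h.1.1.2⟩
      rw [← h.2.1 a, ws_xi fun g hg => cE_val φ _ (cech_sup h9 g hg)]
    · obtain ⟨hab, hv, hb, h9 | ⟨h9, -⟩⟩ := h
      · exact (mem_invT h2).1 h4 a b ⟨hab, hv, h9, hb ▸ h9⟩
      · rcases a with a | a | a <;> rcases b with b | b | b <;> simp [blk] at hb h9
        have := h7 a b hv
        rwa [EE_ne _ _ _ _ fun e => hab (by rw [e])] at this

theorem ac : K2Stmt → Glob1Stmt → Glob2Stmt → Glob3Stmt → ACStmt := by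
  intro hK g1 g2 g3 Q w v D J _ _ f φ hc γ hγ n hn
  have h2 := g2 Q w v D J
  obtain ⟨h3, h3'⟩ := g3 Q w v D J f φ
  obtain ⟨hs, hcl, hD, hco, hcx⟩ := h3 hc
  obtain ⟨hI, -⟩ := h3' fun j => (hs j).1
  have hG := ((g1 Q w v D J).1 rad (Or.inl rfl)).1 φ f fun j => (hs j).1.1
  have hF := ((g1 Q w v D J).1 radF (Or.inr rfl)).1 φ f fun j => (hs j).1.1
  have hDr : ∀ x ∈ rel f, Dif x ∈ rel f := fun x hx => by
    rw [hD]
    exact hG.Dloc_rel _ hx
  have hcr : ∀ r : Subtype (RootP Q v), ∀ x ∈ rel f, gn (gc r) x ∈ rel f := fun r x hx =>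
    words_rel (gn_mem_words (P := fun _ => True) trivial) hx
  have hur : ∀ r : Subtype (RootP Q v), ∀ x ∈ rel f, dr (gc r) x ∈ rel f := fun r x hx =>
    dr_rel _ hx
  have hE : Dif + ceD (RootP Q v) (EE φ γ) (fun r => gn (gc r)) (fun r => dr (gc r)) =
      Dloc (dG radF) 0 f univ := by
    rw [Dloc, sum_eq_zero fun j _ => by
      rw [hcl radF (Or.inr rfl) j, sub_self, mul_zero, zero_mul], vf_radF _ (EE_ne φ γ), Dif_eq,
      sub_zero, add_zero, add_right_comm]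
  refine (hK (Bas Q v) (Fin Q.n) _ Sigma.fst (fun a => Nat.pair a.1 a.2) (RootP Q v) (EE φ γ)
    (fun r => gn (gc r)) (fun r => dr (gc r)) Dif (WW f φ γ) (rel f) key_inj ?_
    (glRel h2 (fun j => (hs j).2) hγ) (car h2 φ γ) (locFin h2 φ γ)
    (fun a b h => (Dif_EE hG h2 γ h).eq) (fun r => ?_) (fun r => ?_) ?_
    (fun x hx => ⟨fun a b h => EE_rel hG h2 hc γ h hx, hDr x hx, fun r => ⟨hcr r x hx, hur r x hx⟩⟩)
    (fun p => ZZ (AlG radF) (wt bw φ) ∅ univ γ p ⊓ InvT f) (coch f φ γ) (mem_Z γ)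
    (fun p x => by rw [hco, mem_Z' h2]) ?_
    ⟨fun p x hx => (hcx γ p x hx).1, fun p x hx => (hcx γ p x hx).2.1, fun p x hx => by
      rw [(hcx γ p x hx).2.2]
      exact zero_mem _⟩ n).1 ?_
  · rintro ⟨i, a⟩ ⟨j, b⟩
    refine and_congr_right fun h => ?_
    obtain rfl : i = j := h
    refine ⟨fun h => Nat.pair_lt_pair_right _ h, fun h => lt_of_not_ge fun h' => ?_⟩
    rcases h'.eq_or_lt with e | e
    · exact h.ne (congrArg _ e.symm)
    · exact lt_asymm h (Nat.pair_lt_pair_right _ e)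
  · exact (Dif_gn hG (alG_gc r)).trans (sg_true_smul _)
  · have := (dr_Dif hG (alG_gc r) fun j => gg_ne_ev _ _ _ _).trans (sg_true_smul _)
    rw [this, neg_neg]
  · rintro p x ⟨⟨h4, h5⟩, h6⟩
    refine ⟨fun a b h => ⟨?_, inv_mem h2 (fun _ _ h' => lie_EE h2 φ γ h' h)
      (fun y hy => EE_rel hG h2 hc γ h hy) h6⟩,
      ⟨⟨Dif_cech hG h4, ?_⟩, inv_mem h2 (fun _ _ h' => lie_Dif hG h2 (offT_lev h')) hDr h6⟩,
      fun r => ⟨⟨⟨(gc_cech r h4).1, (gc_lat γ r h5).1⟩,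
        inv_mem h2 (fun _ _ _ => lie_gn h2 _ _ (alG_gc r)) (hcr r) h6⟩,
        ⟨(gc_cech r h4).2, (gc_lat γ r h5).2⟩,
        inv_mem h2 (fun _ _ _ => lie_dr h2 _ _ (alG_gc r)) (hur r) h6⟩⟩
    · by_cases hab : a = b
      · subst hab
        rw [EE_same]
        exact sub_mem ⟨eu_mem _ h4, eu_mem _ h5⟩ (Submodule.smul_mem _ _ ⟨h4, h5⟩)
      · rw [EE_ne _ _ _ _ hab]
        exact ⟨lie_cech h2 _ _ h4, lie_lat h2 φ γ a b h5⟩
    · rw [hD]
      exact hG.Dloc_wt _ (fun g => g - γ ∈ Lat v) h5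
  · rw [hE]
    have h4 := hF.isCx (A := univ) (J₀ := ∅) (J₁ := univ) (by simp) γ
    exact ⟨fun p x hx => ⟨h4.mapZ p x hx.1, hI.dd _ x hx.2⟩, fun p x hx => h4.mapB p x hx.1,
      fun p x hx => h4.sq p x hx.1⟩
  · rw [hE]
    exact hn

end Pool.Agent.MP_8be872_ag.H94
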