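import Pool.Agent.MP_8be872_ag.H63.LocA

/-! Euler operators and commutation rules in the free supercommutative algebra. -/

namespace Pool.Agent.MP_8be872_ag.H94

open Finset H38 H56 H63 MvPolynomial

section Gen

variable {E O : Type} [Fintype E] [Fintype O] [DecidableEq E] [DecidableEq O]
  {P : (E ⊕ O → ℕ) → Prop} {x : Sp E O}

theorem sg_false : sg false = 1 := rfl

theorem sg_true : sg true = -1 := rfl

omit [Fintype E] [Fintype O] [DecidableEq E] [DecidableEq O] in
theorem sg_true_smul (m : Module.End ℂ (Sp E O)) : sg true • m = -m := neg_one_smul ℂ m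

/-- Euler operators. -/
noncomputable def eu : (E ⊕ O → ℂ) →ₗ[ℂ] Module.End ℂ (Sp E O) where
  toFun c := vf fun g => c g • gn g
  map_add' c c' := by simp only [vf, Pi.add_apply, add_smul, add_mul, sum_add_distrib]
  map_smul' a c := by
    simp only [vf, Pi.smul_apply, smul_eq_mul, mul_smul, smul_mul_assoc, RingHom.id_apply,
      smul_sum]

theorem eu_def (c : E ⊕ O → ℂ) : eu c = vf fun g => c g • gn g := rfl

theorem eu_val (c : E ⊕ O → ℂ) (g : E ⊕ O) :
    c g • (gn g : Module.End ℂ (Sp E O)) ∈ words fun μ => μ = Pi.single g 1 :=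
  Submodule.smul_mem _ _ (gn_mem_words rfl)

theorem eu_par (c : E ⊕ O → ℂ) (g : E ⊕ O) :
    c g • (gn g : Module.End ℂ (Sp E O)) ∈ words fun μ => od μ = xor g.isRight false :=
  words_le (fun μ h => by rw [h, od_single, Bool.xor_false]) (eu_val c g)

theorem eu_apply {c : E ⊕ O → ℂ} {a : ℂ} (hx : x ∈ mono fun μ => ws c μ = a) : eu c x = a • x :=
  euler_apply c hx

theorem eu_bas (c : E ⊕ O → ℂ) (S : Finset O) (m : E →₀ ℕ) :
    eu c (bas S m) = ws c (ex S m) • bas S m := eu_apply (bas_mem rfl)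

theorem eu_mem (c : E ⊕ O → ℂ) (hx : x ∈ mono P) : eu c x ∈ mono P :=
  vf_mem (Pg := fun g μ => μ = Pi.single g 1) (eu_val c) hx fun g μ ν h hν => by
    rw [hν, add_comm]
    exact h

theorem mem_true (x : Sp E O) : x ∈ mono fun _ => True := by
  rw [mono_true]
  trivial

theorem op_ext_bas {L L' : Module.End ℂ (Sp E O)} (h : ∀ S m, L (bas S m) = L' (bas S m)) :
    L = L' := by
  refine LinearMap.ext fun x => ?_
  have := map_mem_of_bas (P := fun _ => True) (L := L - L') (C := ⊥)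
    (fun S m _ => by simp [h]) (mem_true x)
  simpa [sub_eq_zero] using this

theorem coeff_eu (c : E ⊕ O → ℂ) (x : Sp E O) (S : Finset O) (m : E →₀ ℕ) :
    coeff m (eu c x S) = ws c (ex S m) * coeff m (x S) := by
  have := map_mem_of_bas (P := fun _ => True)
    (L := (lcoeff ℂ m ∘ₗ LinearMap.proj S) ∘ₗ (eu c - ws c (ex S m) • 1)) (C := ⊥)
    (fun S' m' _ => by
      simp only [LinearMap.comp_apply, LinearMap.sub_apply, eu_bas, LinearMap.smul_apply,
        Module.End.one_apply, ← sub_smul, map_smul, Submodule.mem_bot, smul_eq_zero]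
      by_cases hS : S' = S
      · subst hS
        by_cases hm : m' = m
        · subst hm
          exact Or.inl (sub_self _)
        · right
          simp [bas, coeff_monomial, hm]
      · right
        simp [bas, Pi.single_eq_of_ne' hS]) (mem_true x)
  simpa [sub_eq_zero] using this

theorem mem_of_eu {c : E ⊕ O → ℂ} {a : ℂ} (h : eu c x = a • x) :
    x ∈ mono fun μ => ws c μ = a := by
  rw [mem_mono]
  intro S m hm
  have := congrArg (fun y : Sp E O => coeff m (y S)) h
  simp only [coeff_eu, Pi.smul_apply, coeff_smul, smul_eq_mul] at this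
  exact mul_right_cancel₀ hm this

theorem eu_single (g : E ⊕ O) : eu (Pi.single g 1) = gn g * dr g := by
  rw [eu_def, vf, sum_eq_single g]
  · simp
  · intro b _ hb
    simp [Pi.single_eq_of_ne hb]
  · simp

theorem ws_pi (g : E ⊕ O) (μ : E ⊕ O → ℕ) : ws (Pi.single g (1 : ℂ)) μ = μ g := by
  rw [ws, sum_eq_single g]
  · simp
  · intro b _ hb
    simp [Pi.single_eq_of_ne hb]
  · simp

theorem eu_eu (c c' : E ⊕ O → ℂ) : Commute (eu c) (eu c') :=
  op_ext_bas fun S m => by
    simp only [Module.End.mul_apply, eu_bas, map_smul, smul_smul, mul_comm]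

theorem eu_comm {X : Module.End ℂ (Sp E O)} (c : E ⊕ O → ℂ)
    (h : ∀ g, c g ≠ 0 → Commute X (gn g) ∧ Commute X (dr g)) : Commute X (eu c) := by
  rw [eu_def, vf]
  refine Commute.sum_right _ _ _ fun g _ => ?_
  by_cases hg : c g = 0
  · simp [hg]
  · exact ((h g hg).1.smul_right _).mul_right (h g hg).2

theorem words_false : words (fun _ : E ⊕ O → ℕ => False) = ⊥ := by simp [words]

variable {δ : E ⊕ O → Module.End ℂ (Sp E O)} {s : Bool}

theorem dr_vf (g₀ : E ⊕ O) (hδ : ∀ g, δ g ∈ words fun μ => μ g₀ = 0 ∧ od μ = xor g.isRight s) :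
    dr g₀ * vf δ = sg (g₀.isRight && s) • (vf δ * dr g₀) := by
  rw [vf, mul_sum, sum_mul, smul_sum]
  refine sum_congr rfl fun g _ => ?_
  have h1 := dr_br (P' := fun _ => False) g₀ (hδ g) fun μ h => by simp at h
  rw [words_false, Submodule.mem_bot, sub_eq_zero] at h1
  rw [← mul_assoc, h1, smul_mul_assoc, mul_assoc, dr_mul_dr, mul_smul_comm, smul_smul, mul_assoc]
  congr 1
  cases g₀.isRight <;> cases g.isRight <;> cases s <;> simp [sg]

theorem vf_gn_zero (hδ : ∀ g, δ g ∈ words fun μ => od μ = xor g.isRight s) {g : E ⊕ O}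
    (h : δ g = 0) : vf δ * gn g = sg (s && g.isRight) • (gn g * vf δ) := by
  have := vf_gn hδ g
  rw [h] at this
  exact sub_eq_zero.1 this

theorem eu_gn {c : E ⊕ O → ℂ} {g : E ⊕ O} (h : c g = 0) : Commute (eu c) (gn g) := by
  have := vf_gn_zero (eu_par c) (g := g) (by rw [h, zero_smul])
  rw [Bool.false_and, sg_false, one_smul] at this
  exact this

theorem eu_dr {c : E ⊕ O → ℂ} {g : E ⊕ O} (h : c g = 0) : Commute (eu c) (dr g) := by
  have := dr_vf (s := false) (δ := fun g' => c g' • gn g') g fun g' => by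
    by_cases hg : g' = g
    · rw [hg, h, zero_smul]
      exact zero_mem _
    · exact words_le (fun μ hμ => by
        rw [hμ, od_single, Bool.xor_false, Pi.single_eq_of_ne' hg]
        exact ⟨rfl, rfl⟩) (eu_val c g')
  rw [Bool.and_false, sg_false, one_smul] at this
  exact this.symm

theorem vf_sum {I : Type} (t : Finset I) (δ : I → E ⊕ O → Module.End ℂ (Sp E O)) :
    vf (fun g => ∑ i ∈ t, δ i g) = ∑ i ∈ t, vf (δ i) := by
  simp only [vf, sum_mul]
  exact sum_comm

theorem pol_mul_X (f : MvPolynomial E ℂ) (e : E) :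
    (pol (f * X e - 1) : Sp E O) = gn (.inl e) (pol f) - one := by
  have h1 : (pol (f * X e - 1) : Sp E O) = pol (f * X e) - one := Pi.single_sub _ _ _
  rw [h1, mul_comm, ← mul_one_eq, mul_mul, Module.End.mul_apply, mul_one_eq]
  rfl

end Gen

section Loc

variable {E O J : Type} [Fintype E] [Fintype O] [Fintype J] [DecidableEq E] [DecidableEq O]
  [DecidableEq J] {f : J → MvPolynomial (E ⊕ J) ℂ} {x : Sp (E ⊕ J) (O ⊕ J)}

theorem vf_rel0 {δ : Gn E O J → Op E O J}
    (hδ : ∀ g, δ g ∈ words fun μ => od μ = xor g.isRight false) (hE : ∀ j, δ (ev j) = 0)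
    (h : ∀ j, vf δ (gn (tv j) (pol (f j))) = 0) (hx : x ∈ rel f) : vf δ x ∈ rel f := by
  refine vf_rel hδ hE (fun j => ⟨0, zero_mem _, ?_⟩) hx
  rw [zero_mul, sub_eq_zero, vf_mul_comm_iff fun g => words_le (fun _ _ => trivial) (hδ g),
    pol_mul_X, map_sub, h, vf_one, sub_zero]

theorem eu_rel {c : Gn E O J → ℂ} (hE : ∀ j, c (ev j) = 0)
    (h : ∀ j, (pol (f j) : Sp (E ⊕ J) (O ⊕ J)) ∈ mono fun μ => ws c μ = -c (tv j))
    (hx : x ∈ rel f) : eu c x ∈ rel f := by
  refine vf_rel0 (eu_par c) (fun j => by rw [hE, zero_smul]) (fun j => ?_) hx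
  have : gn (tv j) (pol (f j) : Sp (E ⊕ J) (O ⊕ J)) ∈ mono fun μ => ws c μ = 0 :=
    gn_mem _ (h j) fun μ hμ => by rw [ws_add, ws_single, hμ, neg_add_cancel]
  have h2 := eu_apply this
  rwa [zero_smul] at h2

omit [Fintype E] [Fintype O] [Fintype J] [DecidableEq E] [DecidableEq O] in
theorem cech_of {Al Al' : Gn E O J → Prop} {J₀ J₁ : Finset J} {μ μ' : Gn E O J → ℕ}
    (h : cech Al J₀ J₁ μ) (h1 : ∀ g, μ' g ≠ 0 → Al' g ∨ (μ g ≠ 0 ∧ (Al g → Al' g)))
    (h2 : ∀ j, μ (ev j) ≠ 0 → μ' (ev j) ≠ 0) : cech Al' J₀ J₁ μ' := by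
  obtain ⟨h3, h4, j, h5⟩ := h
  refine ⟨fun g hg => ?_, fun j hj => h2 j (h4 j hj), j, h2 j h5⟩
  rcases h1 g hg with h6 | ⟨h6, h7⟩
  · exact Or.inl h6
  · rcases h3 g h6 with h8 | ⟨j, h8, h9⟩ | h8
    · exact Or.inl (h7 h8)
    · exact Or.inr (Or.inl ⟨j, h8, h2 j h9⟩)
    · exact Or.inr (Or.inr h8)

end Loc

end Pool.Agent.MP_8be872_ag.H94
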