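import Pool.Agent.MP_8be872_ag.H94.AC1
import Pool.Agent.MP_8be872_ag.H63.SpecB

/-! The differential with a flag is the differential without it plus the Chevalley-Eilenberg
differential. -/

namespace Pool.Agent.MP_8be872_ag.H94

open Finset H38 H56 H63 MvPolynomial
open scoped Matrix

variable {Q : Quiv} {w v D : Fin Q.n → ℕ} {J : Type}

/-- A basis vector of `V`. -/
abbrev iv (a : Bas Q v) : Nb Q w v D := .inr (.inl a)

/-- The ghosts of the flag. -/
abbrev gc (r : Subtype (RootP Q v)) : Ix Q w v D J ⊕ Ix Q w v D J := gg kc (iv r.1.1) (iv r.1.2)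

theorem gg_inj {k k' : Kd Q} {p q p' q' : Nb Q w v D} :
    (gg k p q : Ix Q w v D J ⊕ Ix Q w v D J) = gg k' p' q' ↔ k = k' ∧ p = p' ∧ q = q' := by
  cases k <;> cases k' <;> simp [gg]

theorem ofM_gg {A : Type} (M : Kd Q → Nb Q w v D → Nb Q w v D → A) (t e : J → A) (k : Kd Q)
    (p q : Nb Q w v D) : ofM M t e (gg k p q) = M k p q := by
  cases k <;> rfl

theorem gen_cases (g : Ix Q w v D J ⊕ Ix Q w v D J) :
    (∃ k p q, g = gg k p q) ∨ (∃ j, g = tv j) ∨ ∃ j, g = ev j := by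
  rcases g with (⟨τ, p, q⟩ | j) | (⟨τ, p, q⟩ | j)
  · exact Or.inl ⟨.inl τ, p, q, rfl⟩
  · exact Or.inr (Or.inl ⟨j, rfl⟩)
  · exact Or.inl ⟨.inr τ, p, q, rfl⟩
  · exact Or.inr (Or.inr ⟨j, rfl⟩)

theorem isRight_gg (k : Kd Q) (p q : Nb Q w v D) :
    (gg k p q : Ix Q w v D J ⊕ Ix Q w v D J).isRight = k.isRight := by
  cases k <;> rfl

theorem gg_ne_tv (k : Kd Q) (p q : Nb Q w v D) (j : J) :
    (gg k p q : Ix Q w v D J ⊕ Ix Q w v D J) ≠ tv j := by
  cases k <;> simp [gg]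

theorem gg_ne_ev (k : Kd Q) (p q : Nb Q w v D) (j : J) :
    (gg k p q : Ix Q w v D J ⊕ Ix Q w v D J) ≠ ev j := by
  cases k <;> simp [gg]

theorem alG_gg (R : Nb Q w v D → Nb Q w v D → Prop) (k : Kd Q) (p q : Nb Q w v D) :
    AlG (J := J) R (gg k p q) ↔ shape R k p q := by
  rw [AlG, ofM_gg]

theorem alG_tv (R : Nb Q w v D → Nb Q w v D → Prop) (j : J) : ¬ AlG (J := J) R (tv j) := id

theorem alG_ev (R : Nb Q w v D → Nb Q w v D → Prop) (j : J) : ¬ AlG (J := J) R (ev j) := id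

theorem shape_ne {R R' : Nb Q w v D → Nb Q w v D → Prop} {k : Kd Q} (hk : k ≠ kc)
    (p q : Nb Q w v D) : shape R k p q ↔ shape R' k p q := by
  rcases k with (ε | _ | _) | (ε | _ | _)
  all_goals first | exact Iff.rfl | exact absurd rfl hk

theorem not_shape_iv (a : Bas Q v) (q : Nb Q w v D) : ¬ shape rad kc (iv a) q := by
  rintro ⟨⟨-, -, h1⟩, h2⟩
  have h3 : 1 < blk q := h2
  omega

theorem shape_radF (p q : Nb Q w v D) : shape radF kc p q ↔
    shape rad kc p q ∨ ∃ r : Subtype (RootP Q v), p = iv r.1.1 ∧ q = iv r.1.2 := by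
  constructor
  · rintro ⟨h1, h2 | ⟨a, b, rfl, rfl, h2⟩⟩
    · exact Or.inl ⟨h1, h2⟩
    · exact Or.inr ⟨⟨(a, b), h1.1, h2⟩, rfl, rfl⟩
  · rintro (⟨h1, h2⟩ | ⟨r, rfl, rfl⟩)
    · exact ⟨h1, Or.inl h2⟩
    · exact ⟨⟨r.2.1, one_lt_two, one_lt_two⟩, Or.inr ⟨_, _, rfl, rfl, r.2.2⟩⟩

theorem alG_gc (r : Subtype (RootP Q v)) : ¬ AlG (w := w) (D := D) (J := J) rad (gc r) := by
  rw [alG_gg]
  exact not_shape_iv _ _

theorem alG_radF (g : Ix Q w v D J ⊕ Ix Q w v D J) :
    AlG radF g ↔ AlG rad g ∨ ∃ r, g = gc r := by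
  rcases gen_cases g with ⟨k, p, q, rfl⟩ | ⟨j, rfl⟩ | ⟨j, rfl⟩
  · rw [alG_gg, alG_gg]
    by_cases hk : k = kc
    · subst hk
      simp only [shape_radF, gg_inj, true_and]
    · simp only [shape_ne (R := radF) (R' := rad) hk, gg_inj, hk, false_and, exists_false,
        or_false]
  · simp only [alG_tv, false_or, false_iff, not_exists]
    exact fun r h => gg_ne_tv _ _ _ _ h.symm
  · simp only [alG_ev, false_or, false_iff, not_exists]
    exact fun r h => gg_ne_ev _ _ _ _ h.symm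

theorem iv_pair {r r' : Subtype (RootP Q v)} :
    ((iv r.1.1 : Nb Q w v D) = iv r'.1.1 ∧ (iv r.1.2 : Nb Q w v D) = iv r'.1.2) ↔ r = r' := by
  constructor
  · rintro ⟨h1, h2⟩
    exact Subtype.ext (Prod.ext (by simpa using h1) (by simpa using h2))
  · rintro rfl
    exact ⟨rfl, rfl⟩

theorem gc_inj {r r' : Subtype (RootP Q v)} :
    (gc r : Ix Q w v D J ⊕ Ix Q w v D J) = gc r' ↔ r = r' := by
  rw [gg_inj, iv_pair]
  simp

theorem root_ne (r : Subtype (RootP Q v)) : r.1.1 ≠ r.1.2 := fun h => by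
  have := r.2.2
  rw [h] at this
  exact lt_irrefl _ this

variable [Fintype J] [DecidableEq J]

/-- The matrix of the ghosts of the flag. -/
noncomputable def Cv : Matrix (Nb Q w v D) (Nb Q w v D) (OpQ Q w v D J) :=
  ∑ r : Subtype (RootP Q v), Matrix.single (iv r.1.1) (iv r.1.2) (gn (gc r))

theorem Yg_apply (R : Nb Q w v D → Nb Q w v D → Prop) (k : Kd Q) (p q : Nb Q w v D)
    [Decidable (shape R k p q)] :
    Yg (J := J) R k p q = if shape R k p q then gn (gg k p q) else 0 := by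
  simp only [Yg, msk]

theorem Yg_ne {k : Kd Q} (hk : k ≠ kc) :
    Yg (w := w) (v := v) (D := D) (J := J) radF k = Yg rad k := by
  classical
  ext1 p q
  rw [Yg_apply, Yg_apply]
  simp only [shape_ne (R := radF) (R' := rad) hk]

theorem Cv_iv (r : Subtype (RootP Q v)) :
    Cv (w := w) (D := D) (J := J) (iv r.1.1) (iv r.1.2) = gn (gc r) := by
  rw [Cv, Matrix.sum_apply, sum_eq_single r]
  · simp
  · intro b _ hb
    rw [Matrix.single_apply, if_neg fun h => hb (iv_pair.1 h)]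
  · simp

theorem Cv_zero {p q : Nb Q w v D} (h : ¬ ∃ r : Subtype (RootP Q v), p = iv r.1.1 ∧ q = iv r.1.2) :
    Cv (J := J) p q = 0 := by
  rw [Cv, Matrix.sum_apply]
  refine sum_eq_zero fun r _ => ?_
  rw [Matrix.single_apply, if_neg fun h' => h ⟨r, h'.1.symm, h'.2.symm⟩]

theorem Yg_c : Yg (w := w) (v := v) (D := D) (J := J) radF kc = Yg rad kc + Cv := by
  classical
  ext1 p q
  rw [Matrix.add_apply, Yg_apply, Yg_apply]
  by_cases h : ∃ r : Subtype (RootP Q v), p = iv r.1.1 ∧ q = iv r.1.2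
  · rw [if_pos ((shape_radF p q).2 (Or.inr h))]
    obtain ⟨r, rfl, rfl⟩ := h
    rw [if_neg (not_shape_iv _ _), Cv_iv, zero_add]
  · rw [Cv_zero h, add_zero]
    simp only [shape_radF, h, or_false]

theorem Phi_add {N A : Type} [Fintype N] [Ring A] [Algebra ℂ A] (Y Y' : Kd Q → Matrix N N A)
    (C : Matrix N N A) (h : ∀ k, k ≠ kc → Y' k = Y k) (hc : Y' kc = Y kc + C) (k : Kd Q) :
    Phi Q Y' k = Phi Q Y k + (sg k.isRight • (Y k * C) - C * Y k) - if k = kc then C * C else 0 := by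
  have hx : ∀ ε, Y' (kx ε) = Y (kx ε) := fun ε => h _ (by simp)
  have ha : Y' ka = Y ka := h _ (by simp)
  have hz : Y' kz = Y kz := h _ (by simp)
  have ht : ∀ ε, Y' (kt ε) = Y (kt ε) := fun ε => h _ (by simp)
  have he : Y' ke = Y ke := h _ (by simp)
  rcases k with (ε | _ | _) | (ε | _ | _)
  all_goals
    simp only [Phi, hx, ha, hz, ht, he, hc, Sum.isRight_inl, Sum.isRight_inr, sg_true, sg_false,
      one_smul, neg_smul, Matrix.mul_add, Matrix.add_mul, reduceCtorEq, if_false, if_true,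
      Sum.inr.injEq, Bool.false_eq_true]
    abel

theorem Phi_radF (k : Kd Q) : Phi Q (Yg (w := w) (v := v) (D := D) (J := J) radF) k =
    Phi Q (Yg rad) k + (sg k.isRight • (Yg rad k * Cv) - Cv * Yg rad k) -
      if k = kc then Cv * Cv else 0 :=
  Phi_add _ _ _ (fun _ hk => Yg_ne hk) Yg_c k

theorem gc_mul (r : Subtype (RootP Q v)) (k : Kd Q) (p q : Nb Q w v D) :
    gn (gc r) * Yg (J := J) rad k p q = sg k.isRight • (Yg rad k p q * gn (gc r)) := by
  classical
  rw [Yg_apply]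
  split_ifs
  · rw [gn_mul_gn, isRight_gg, isRight_gg]
    rfl
  · simp

theorem sum_gc_mul (k : Kd Q) (p q : Nb Q w v D) :
    ∑ r : Subtype (RootP Q v), gn (gc r) * (Yg (J := J) rad k * Matrix.single (iv r.1.1) (iv r.1.2) 1 -
      Matrix.single (iv r.1.1) (iv r.1.2) 1 * Yg rad k : Matrix _ _ (OpQ Q w v D J)) p q =
      (sg k.isRight • (Yg rad k * Cv) - Cv * Yg rad k : Matrix _ _ (OpQ Q w v D J)) p q := by
  rw [Cv, mul_sum, sum_mul, smul_sum, ← sum_sub_distrib, Matrix.sum_apply]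
  refine sum_congr rfl fun r _ => ?_
  simp only [Matrix.sub_apply, Matrix.smul_apply, mul_sub]
  congr 1
  · by_cases h : q = iv r.1.2
    · subst h
      rw [Matrix.mul_single_apply_same, Matrix.mul_single_apply_same, mul_one, gc_mul]
    · rw [Matrix.mul_single_apply_of_ne _ _ _ _ _ h, Matrix.mul_single_apply_of_ne _ _ _ _ _ h,
        mul_zero, smul_zero]
  · by_cases h : p = iv r.1.1
    · subst h
      rw [Matrix.single_mul_apply_same, Matrix.single_mul_apply_same, one_mul]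
    · rw [Matrix.single_mul_apply_of_ne _ _ _ _ _ h, Matrix.single_mul_apply_of_ne _ _ _ _ _ h,
        mul_zero]

theorem Yc_row (a : Bas Q v) (q : Nb Q w v D) : Yg (J := J) rad kc (iv a) q = 0 := by
  classical
  rw [Yg_apply, if_neg (not_shape_iv _ _)]

theorem Cv_row {p : Nb Q w v D} (hp : ∀ a, p ≠ iv a) (q : Nb Q w v D) : Cv (J := J) p q = 0 :=
  Cv_zero fun ⟨_, h, _⟩ => hp _ h

theorem Cv_mul_Yc : (Cv * Yg (J := J) rad kc : Matrix _ _ (OpQ Q w v D J)) = 0 := by
  ext1 p q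
  rw [Matrix.mul_apply, Matrix.zero_apply]
  refine sum_eq_zero fun s _ => ?_
  by_cases h : ∃ r : Subtype (RootP Q v), p = iv r.1.1 ∧ s = iv r.1.2
  · obtain ⟨r, -, rfl⟩ := h
    rw [Yc_row, mul_zero]
  · rw [Cv_zero h, zero_mul]

theorem Cv_sq (r'' : Subtype (RootP Q v)) :
    (Cv * Cv : Matrix _ _ (OpQ Q w v D J)) (iv r''.1.1) (iv r''.1.2) =
      ∑ r : Subtype (RootP Q v), ∑ r' : Subtype (RootP Q v),
        if r.1.2 = r'.1.1 ∧ r''.1 = (r.1.1, r'.1.2) then gn (gc r) * gn (gc r') else 0 := by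
  rw [Cv, sum_mul_sum, Matrix.sum_apply]
  refine sum_congr rfl fun r _ => ?_
  rw [Matrix.sum_apply]
  refine sum_congr rfl fun r' _ => ?_
  by_cases h : r.1.2 = r'.1.1
  · rw [h, Matrix.single_mul_single_same, Matrix.single_apply]
    refine if_congr ?_ rfl rfl
    simp only [Sum.inr.injEq, Sum.inl.injEq, true_and, Prod.ext_iff]
    exact ⟨fun h => ⟨h.1.symm, h.2.symm⟩, fun h => ⟨h.1.symm, h.2.symm⟩⟩
  · rw [Matrix.single_mul_single_of_ne _ _ _ _ (by simpa using h), if_neg fun h' => h h'.1]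
    rfl

/-- The values of `lie`. -/
noncomputable def dL (a b : Nb Q w v D) : Ix Q w v D J ⊕ Ix Q w v D J → OpQ Q w v D J :=
  ofM (msk rad fun k => Yg rad k * Matrix.single a b 1 - Matrix.single a b 1 * Yg rad k) 0 0

theorem dG_radF (g : Ix Q w v D J ⊕ Ix Q w v D J) :
    dG radF g = dG rad g + ∑ r : Subtype (RootP Q v), gn (gc r) * dL (iv r.1.1) (iv r.1.2) g -
      ∑ r : Subtype (RootP Q v), if g = gc r then
        (Cv * Cv : Matrix _ _ (OpQ Q w v D J)) (iv r.1.1) (iv r.1.2) else 0 := by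
  classical
  rcases gen_cases g with ⟨k, p, q, rfl⟩ | ⟨j, rfl⟩ | ⟨j, rfl⟩
  · simp only [dG, dL, ofM_gg, msk]
    by_cases h : shape rad k p q
    · have h' : shape radF k p q := (alG_gg (J := J) _ _ _ _).1
        ((alG_radF _).2 (Or.inl ((alG_gg _ _ _ _).2 h)))
      simp only [if_pos h, if_pos h']
      erw [sum_gc_mul k p q]
      rw [Phi_radF, sum_eq_zero fun r _ => if_neg fun hg =>
        alG_gc (w := w) (D := D) (J := J) r (hg ▸ (alG_gg _ _ _ _).2 h)]
      simp only [Matrix.sub_apply, Matrix.add_apply]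
      congr 1
      split_ifs with hk
      · subst hk
        rw [Matrix.mul_apply]
        exact sum_eq_zero fun s _ => by
          rw [Cv_row fun a ha => not_shape_iv a q (ha ▸ h), zero_mul]
      · rfl
    · simp only [if_neg h, mul_zero, sum_const_zero, add_zero, zero_sub]
      by_cases h' : shape radF k p q
      · obtain ⟨r, hr⟩ := ((alG_radF _).1 ((alG_gg (J := J) _ _ _ _).2 h')).resolve_left
          fun h2 => h ((alG_gg _ _ _ _).1 h2)
        obtain ⟨rfl, rfl, rfl⟩ := gg_inj.1 hr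
        rw [if_pos h', sum_eq_single r (fun b _ hb => if_neg fun h3 => hb (gc_inj.1 h3).symm)
          (by simp), if_pos rfl, Phi_radF, if_pos rfl, Cv_mul_Yc]
        simp only [Phi, Matrix.sub_apply, Matrix.add_apply, Matrix.neg_apply, Matrix.smul_apply,
          Matrix.zero_apply]
        rw [Matrix.mul_apply, Matrix.mul_apply]
        simp only [Yc_row, zero_mul, sum_const_zero, smul_zero, neg_zero, sub_zero, add_zero,
          zero_sub]
      · rw [if_neg h', sum_eq_zero fun r _ => if_neg fun hg => h' ((alG_gg (J := J) _ _ _ _).1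
          ((alG_radF _).2 (Or.inr ⟨r, hg⟩))), neg_zero]
  · rw [sum_eq_zero fun r _ => if_neg (gg_ne_tv _ _ _ _).symm]
    simp [dG, dL, ofM]
  · rw [sum_eq_zero fun r _ => if_neg (gg_ne_ev _ _ _ _).symm]
    simp [dG, dL, ofM]

theorem vf_radF (E : Bas Q v → Bas Q v → OpQ Q w v D J)
    (hE : ∀ a b, a ≠ b → E a b = lie rad (iv a) (iv b)) :
    vf (dG radF) = vf (dG rad) + ceD (RootP Q v) E (fun r => gn (gc r)) fun r => dr (gc r) := by
  have h1 : dG (w := w) (v := v) (D := D) (J := J) radF = dG rad +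
      (fun g => ∑ r : Subtype (RootP Q v), gn (gc r) * dL (iv r.1.1) (iv r.1.2) g) -
      fun g => ∑ r : Subtype (RootP Q v), if g = gc r then
        (Cv * Cv : Matrix _ _ (OpQ Q w v D J)) (iv r.1.1) (iv r.1.2) else 0 := funext dG_radF
  rw [h1, vf_sub, vf_add, vf_sum, vf_sum, ceD, add_sub_assoc]
  congr 2
  · refine sum_congr rfl fun r _ => ?_
    rw [hE _ _ (root_ne r), ← mul_vf]
    rfl
  · simp only [vf, ite_mul, zero_mul, sum_ite_eq', mem_univ, if_true, Cv_sq, sum_mul]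
    rw [sum_comm]
    exact sum_congr rfl fun r _ => sum_comm

end Pool.Agent.MP_8be872_ag.H94
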