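import Pool.Agent.MP_8be872_ag.H94.AC2

/-! The action of `gl(V)` on the Čech cochains. -/

namespace Pool.Agent.MP_8be872_ag.H94

open Finset H38 H56 H63 MvPolynomial
open scoped Matrix

variable {Q : Quiv} {w v D : Fin Q.n → ℕ} {J : Type}

theorem key_inj : Function.Injective fun a : Bas Q v => Nat.pair a.1 a.2 := by
  rintro ⟨i, a⟩ ⟨j, b⟩ h
  obtain ⟨h1, h2⟩ := Nat.pair_eq_pair.1 h
  obtain rfl : i = j := Fin.ext h1
  obtain rfl : a = b := Fin.ext h2
  rfl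

theorem xi_xV (a b : Bas Q v) :
    xi (iv a : Nb Q w v D) (xV b.1 b.2) = if b = a then 1 else 0 := by
  change co _ (gen _) = _
  rw [co_gen]
  refine if_congr ⟨fun h => key_inj (by simp only; omega), fun h => by rw [h]⟩ rfl rfl

variable (v) in
/-- The weight lattice of the torus of `GL(V)`. -/
noncomputable def Lat : Submodule ℤ G :=
  Submodule.span ℤ (Set.range fun a : Bas Q v => xV a.1 a.2)

theorem bw_mem (a : Bas Q v) : bw (iv a : Nb Q w v D) ∈ Lat v := Submodule.subset_span ⟨a, rfl⟩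

theorem lat_zero {g : G} (hg : g ∈ Lat v) (h : ∀ a, xi (iv a : Nb Q w v D) g = 0) : g = 0 := by
  obtain ⟨n, rfl⟩ := (Submodule.mem_span_range_iff_exists_fun ℤ).1 hg
  refine sum_eq_zero fun a _ => ?_
  have := h a
  simp only [map_sum, map_zsmul, xi_xV, smul_eq_mul, mul_ite, mul_one, mul_zero, sum_ite_eq',
    mem_univ, if_true] at this
  rw [this, zero_smul]

theorem wt_gc (φ : J → G) (r : Subtype (RootP Q v)) :
    wt bw φ (gc r : Ix Q w v D J ⊕ Ix Q w v D J) =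
      bw (iv r.1.2 : Nb Q w v D) - bw (iv r.1.1 : Nb Q w v D) := sub_zero _

theorem sg_gc (r s : Subtype (RootP Q v)) : sg ((gc r : Ix Q w v D J ⊕ Ix Q w v D J).isRight &&
    (gc s : Ix Q w v D J ⊕ Ix Q w v D J).isRight) = sg true := rfl

open Classical in
/-- Eigenvalues of the diagonal `lie`. -/
noncomputable def cA (a : Nb Q w v D) (g : Ix Q w v D J ⊕ Ix Q w v D J) : ℂ :=
  (xi a (if AlG rad g then wt bw (0 : J → G) g else 0) : ℤ)

/-- The correction on the variables `T_j`. -/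
noncomputable def cT (φ : J → G) (a : Nb Q w v D) (g : Ix Q w v D J ⊕ Ix Q w v D J) : ℂ :=
  (ofM 0 (fun j => xi a (φ j)) 0 g : ℤ)

/-- Eigenvalues of the diagonal elements of `gl(V)`. -/
noncomputable def cE (φ : J → G) (a : Nb Q w v D) : Ix Q w v D J ⊕ Ix Q w v D J → ℂ :=
  cA a - cT φ a

theorem cA_of_not {a : Nb Q w v D} {g : Ix Q w v D J ⊕ Ix Q w v D J} (h : ¬ AlG rad g) :
    cA a g = 0 := by
  simp [cA, h]

theorem cT_gg (φ : J → G) (a : Nb Q w v D) (k : Kd Q) (p q : Nb Q w v D) :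
    cT φ a (gg k p q) = 0 := by
  simp [cT, ofM_gg]

theorem cT_ne {φ : J → G} {a : Nb Q w v D} {g : Ix Q w v D J ⊕ Ix Q w v D J}
    (h : cT φ a g ≠ 0) : ∃ j, g = tv j := by
  rcases gen_cases g with ⟨k, p, q, rfl⟩ | hj | ⟨j, rfl⟩
  · exact absurd (cT_gg _ _ _ _ _) h
  · exact hj
  · exact absurd (by simp [cT, ofM]) h

theorem cE_gc (φ : J → G) (a : Nb Q w v D) (r : Subtype (RootP Q v)) :
    cE φ a (gc r) = 0 := by
  rw [cE, Pi.sub_apply, cA_of_not (alG_gc r), cT_gg, sub_zero]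

theorem cE_val (φ : J → G) (a : Nb Q w v D) {g : Ix Q w v D J ⊕ Ix Q w v D J}
    (h : AlG rad g ∨ (∃ j, g = tv j) ∨ ∃ j, g = ev j) :
    cE φ a g = (xi a (wt bw φ g) : ℤ) := by
  unfold cE
  rcases h with h | ⟨j, rfl⟩ | ⟨j, rfl⟩
  · rcases gen_cases g with ⟨k, p, q, rfl⟩ | ⟨j, rfl⟩ | ⟨j, rfl⟩
    · rw [Pi.sub_apply, cT_gg, cA, if_pos h, sub_zero, wt, wt, ofM_gg, ofM_gg]
    · exact absurd h (alG_tv _ _)
    · exact absurd h (alG_ev _ _)
  · rw [Pi.sub_apply, cA_of_not (alG_tv _ _)]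
    simp [cT, wt, ofM]
  · rw [Pi.sub_apply, cA_of_not (alG_ev _ _)]
    simp [cT, wt, ofM]

variable [Fintype J] [DecidableEq J]

/-- Eigenvalues of the total torus action. -/
noncomputable def cW (φ : J → G) (a : Bas Q v) : Ix Q w v D J ⊕ Ix Q w v D J → ℂ :=
  cE φ (iv a) + ∑ r : Subtype (RootP Q v),
    ((if r.1.2 = a then Pi.single (gc r) 1 else 0) - if r.1.1 = a then Pi.single (gc r) 1 else 0)

theorem cW_val (φ : J → G) (a : Bas Q v) {g : Ix Q w v D J ⊕ Ix Q w v D J}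
    (h : AlG radF g ∨ (∃ j, g = tv j) ∨ ∃ j, g = ev j) :
    cW φ a g = (xi (iv a : Nb Q w v D) (wt bw φ g) : ℤ) := by
  by_cases hg : ∃ r, g = gc r
  · obtain ⟨r, rfl⟩ := hg
    rw [cW, Pi.add_apply, cE_gc, zero_add, Finset.sum_apply, sum_eq_single r, wt_gc, map_sub]
    · change _ = ((xi (iv a) (xV _ _) - xi (iv a) (xV _ _) : ℤ) : ℂ)
      rw [xi_xV, xi_xV]
      split_ifs <;> simp
    · intro b _ hb
      have : (gc r : Ix Q w v D J ⊕ Ix Q w v D J) ≠ gc b := fun h => hb (gc_inj.1 h).symm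
      split_ifs <;> simp [Pi.single_eq_of_ne this]
    · simp
  · rw [cW, Pi.add_apply, cE_val φ _ (h.imp_left fun h' => ((alG_radF g).1 h').resolve_right hg),
      Finset.sum_apply, sum_eq_zero, add_zero]
    intro r _
    have : g ≠ gc r := fun h => hg ⟨r, h⟩
    split_ifs <;> simp [Pi.single_eq_of_ne this]

theorem ws_xi {φ : J → G} {a : Nb Q w v D} {c : Ix Q w v D J ⊕ Ix Q w v D J → ℂ}
    {μ : Ix Q w v D J ⊕ Ix Q w v D J → ℕ} (h : ∀ g, μ g ≠ 0 → c g = (xi a (wt bw φ g) : ℤ)) :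
    ws c μ = (xi a (ws (wt bw φ) μ) : ℤ) := by
  rw [map_ws, ws, ws, Int.cast_sum]
  refine sum_congr rfl fun g _ => ?_
  by_cases hg : μ g = 0
  · simp [hg]
  · rw [h g hg]
    simp

omit [Fintype J] in
theorem cech_sup {Al : Ix Q w v D J ⊕ Ix Q w v D J → Prop} {J₀ J₁ : Finset J}
    {μ : Ix Q w v D J ⊕ Ix Q w v D J → ℕ} (h : cech Al J₀ J₁ μ) (g : Ix Q w v D J ⊕ Ix Q w v D J)
    (hg : μ g ≠ 0) : Al g ∨ (∃ j, g = tv j) ∨ ∃ j, g = ev j :=
  (h.1 g hg).imp_right fun h => h.imp (fun ⟨j, h, _⟩ => ⟨j, h⟩) fun ⟨j, _, h⟩ => ⟨j, h⟩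

/-- The central correction. -/
noncomputable def Zc (φ : J → G) (γ : G) (a : Nb Q w v D) : OpQ Q w v D J :=
  eu (cT φ a) + (xi a γ : ℂ) • 1

/-- The representation of `gl(V)`. -/
noncomputable def EE (φ : J → G) (γ : G) (a b : Bas Q v) : OpQ Q w v D J :=
  if a = b then eu (cE φ (iv a)) - (xi (iv a : Nb Q w v D) γ : ℂ) • 1
  else lie rad (iv a) (iv b)

theorem EE_same (φ : J → G) (γ : G) (a : Bas Q v) : (EE φ γ a a : OpQ Q w v D J) =
    eu (cE φ (iv a)) - (xi (iv a : Nb Q w v D) γ : ℂ) • 1 := if_pos rfl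

theorem EE_ne (φ : J → G) (γ : G) (a b : Bas Q v) (h : a ≠ b) :
    (EE φ γ a b : OpQ Q w v D J) = lie rad (iv a) (iv b) := if_neg h

theorem totW_eq (φ : J → G) (γ : G) (a : Bas Q v) :
    totW (RootP Q v) (EE φ γ) (fun r => gn (gc r)) (fun r => dr (gc r)) a =
      (eu (cW φ a) - (xi (iv a : Nb Q w v D) γ : ℂ) • 1 : OpQ Q w v D J) := by
  simp only [totW, EE_same, cW, map_add, map_sum, map_sub (eu) (ite _ _ _), apply_ite eu,
    eu_single, map_zero]
  abel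

theorem Zc_comm (φ : J → G) (γ : G) (a : Nb Q w v D) {X : OpQ Q w v D J}
    (h : ∀ j, Commute X (gn (tv j)) ∧ Commute X (dr (tv j))) : Commute X (Zc φ γ a) :=
  (eu_comm _ fun g hg => by
    obtain ⟨j, rfl⟩ := cT_ne hg
    exact h j).add_right ((Commute.one_right _).smul_right _)

theorem Zc_Zc (φ : J → G) (γ : G) (a b : Nb Q w v D) : Commute (Zc φ γ a) (Zc φ γ b) :=
  ((eu_eu _ _).add_right ((Commute.one_right _).smul_right _)).add_left
    ((Commute.one_left _).smul_left _)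

variable (h2 : Glob2At Q w v D J)
include h2

theorem lie_diag {a : Nb Q w v D} (ha : blk a < 2) : lie (J := J) rad a a = eu (cA a) :=
  op_ext_bas fun S m => by
    rw [eu_bas, h2.diag rad a _ ha _ (bas_mem rfl), map_ws, ws, ws, Int.cast_sum]
    congr 1
    refine sum_congr rfl fun g _ => ?_
    simp [cA]

theorem EE_eq (φ : J → G) (γ : G) (a b : Bas Q v) : (EE φ γ a b : OpQ Q w v D J) =
    lie rad (iv a) (iv b) - if a = b then Zc φ γ (iv a) else 0 := by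
  by_cases h : a = b
  · subst h
    rw [EE_same, if_pos rfl, lie_diag h2 one_lt_two, cE, map_sub, Zc, sub_sub]
  · rw [EE_ne _ _ _ _ h, if_neg h, sub_zero]

theorem lie_val (a b : Nb Q w v D) : ∃ δ : _ → OpQ Q w v D J, lie rad a b = vf δ ∧
    (∀ g, ¬ AlG rad g → δ g = 0) ∧ ∀ g, δ g ∈ words fun μ => (∀ j, g ≠ ev j) ∧
      ∃ g', AlG rad g' ∧ μ = Pi.single g' 1 ∧ g'.isRight = g.isRight := by
  obtain ⟨δ, e, h0, h1⟩ := h2.val rad a b
  refine ⟨δ, e, h0, fun g => words_le ?_ (h1 g)⟩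
  rintro μ ⟨k, p, q, p', q', rfl, rfl, hs, -⟩
  exact ⟨fun j => gg_ne_ev _ _ _ _, _, (alG_gg _ _ _ _).2 hs, rfl, by rw [isRight_gg, isRight_gg]⟩

theorem lie_par (a b : Nb Q w v D) : ∃ δ : _ → OpQ Q w v D J, lie rad a b = vf δ ∧
    (∀ g, ¬ AlG rad g → δ g = 0) ∧
    ∀ g, δ g ∈ words fun μ => sup (AlG rad) μ ∧ od μ = xor g.isRight false := by
  obtain ⟨δ, e, h0, h1⟩ := lie_val h2 a b
  refine ⟨δ, e, h0, fun g => words_le ?_ (h1 g)⟩
  rintro μ ⟨-, g', hg, rfl, hs⟩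
  exact ⟨sup_single.2 hg, by rw [od_single, hs, Bool.xor_false]⟩

theorem lie_gn (a b : Nb Q w v D) {g : Ix Q w v D J ⊕ Ix Q w v D J} (hg : ¬ AlG rad g) :
    Commute (lie rad a b) (gn g) := by
  obtain ⟨δ, e, h0, h1⟩ := lie_par h2 a b
  have := vf_gn_zero (fun g => words_le (fun _ h => h.2) (h1 g)) (h0 g hg)
  rw [Bool.false_and, sg_false, one_smul, ← e] at this
  exact this

theorem lie_dr (a b : Nb Q w v D) {g : Ix Q w v D J ⊕ Ix Q w v D J} (hg : ¬ AlG rad g) :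
    Commute (lie rad a b) (dr g) := by
  obtain ⟨δ, e, -, h1⟩ := lie_par h2 a b
  have := dr_vf g fun g' => words_le
    (fun μ h => And.intro (by_contra fun h' => hg (h.1 g h')) h.2) (h1 g')
  rw [Bool.and_false, sg_false, one_smul, ← e] at this
  exact this.symm

theorem lie_Zc (φ : J → G) (γ : G) (a b c : Nb Q w v D) : Commute (lie rad a b) (Zc φ γ c) :=
  Zc_comm _ _ _ fun _ => ⟨lie_gn h2 _ _ (alG_tv _ _), lie_dr h2 _ _ (alG_tv _ _)⟩

theorem lie_rel {f : J → MvPolynomial (Ix Q w v D J) ℂ} {a b : Nb Q w v D}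
    (h : ∀ j, lie rad a b (pol (f j)) = 0) {x : Sp (Ix Q w v D J) (Ix Q w v D J)}
    (hx : x ∈ rel f) : lie rad a b x ∈ rel f := by
  obtain ⟨δ, e, h0, h1⟩ := lie_par h2 a b
  rw [e]
  refine vf_rel0 (fun g => words_le (fun _ h => h.2) (h1 g)) (fun j => h0 _ (alG_ev _ _))
    (fun j => ?_) hx
  have := LinearMap.congr_fun (lie_gn h2 a b (alG_tv rad j)).eq (pol (f j))
  rw [Module.End.mul_apply, Module.End.mul_apply, h, map_zero, e] at this
  exact this

theorem lie_cech (a b : Nb Q w v D) {p : Bool} {x : Sp (Ix Q w v D J) (Ix Q w v D J)}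
    (hx : x ∈ mono fun μ => cech (AlG radF) ∅ univ μ ∧ od μ = p) :
    lie rad a b x ∈ mono fun μ => cech (AlG radF) ∅ univ μ ∧ od μ = p := by
  obtain ⟨δ, e, -, h1⟩ := lie_val h2 a b
  rw [e]
  refine vf_mem h1 hx ?_
  rintro g μ ν ⟨h3, h4⟩ ⟨h5, g', hg, rfl, hs⟩
  refine ⟨cech_of h3 (fun g'' h6 => ?_) fun j h6 => ?_, ?_⟩
  · by_cases h7 : g'' = g'
    · exact Or.inl ((alG_radF _).2 (Or.inl (h7 ▸ hg)))
    · rw [Pi.add_apply, Pi.single_eq_of_ne h7, zero_add] at h6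
      exact Or.inr ⟨by rw [Pi.add_apply]; omega, id⟩
  · rw [Pi.add_apply, Pi.single_eq_of_ne' (h5 j)] at h6
    rw [Pi.add_apply]
    omega
  · rw [od_add, od_single] at h4 ⊢
    rw [hs, Bool.xor_comm, h4]

theorem lie_deg (a b : Nb Q w v D) {n : ℕ} {x : Sp (Ix Q w v D J) (Ix Q w v D J)}
    (hx : x ∈ mono fun μ => ∑ g, μ g ≤ n) : lie rad a b x ∈ mono fun μ => ∑ g, μ g ≤ n := by
  obtain ⟨δ, e, -, h1⟩ := lie_val h2 a b
  rw [e]
  refine vf_mem h1 hx ?_
  rintro g μ ν h3 ⟨-, g', -, rfl, -⟩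
  simp only [Pi.add_apply, sum_add_distrib, sum_pi_single', mem_univ, if_true] at h3 ⊢
  omega

theorem lie_lat (φ : J → G) (γ : G) (a b : Bas Q v) {x : Sp (Ix Q w v D J) (Ix Q w v D J)}
    (hx : x ∈ mono fun μ => ws (wt bw φ) μ - γ ∈ Lat v) :
    lie rad (iv a) (iv b) x ∈ mono fun μ => ws (wt bw φ) μ - γ ∈ Lat v := by
  refine map_mem_of_bas (fun S m h => ?_) hx
  refine mono_le (fun μ hμ => ?_) (h2.wts rad (iv a) (iv b) bw φ _ _ (bas_mem rfl))
  rw [hμ, add_sub_right_comm]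
  exact add_mem h (sub_mem (bw_mem a) (bw_mem b))

theorem locFin (φ : J → G) (γ : G) :
    LocFin (Sigma.fst : Bas Q v → Fin Q.n) (EE (w := w) (D := D) φ γ) := by
  refine ⟨fun x => ?_, fun x => ?_⟩
  · obtain ⟨n, hn⟩ := exists_deg x
    refine ⟨_, finite_deg n, hn, fun a b _ y hy => ?_⟩
    by_cases h : a = b
    · subst h
      rw [EE_same]
      exact sub_mem (eu_mem _ hy) (Submodule.smul_mem _ _ hy)
    · rw [EE_ne _ _ _ _ h]
      exact lie_deg h2 _ _ hy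
  · refine mono_le_of_bas (P := fun _ => True) (fun S m _ => Submodule.subset_span ?_) (mem_true x)
    have h1 : ∀ a : Bas Q v, ∃ n : ℤ, EE φ γ a a (bas S m) = (n : ℂ) • bas S m := by
      intro a
      have h3 : ∀ g, ∃ n : ℤ, cE φ (iv a : Nb Q w v D) g = n := fun g =>
        ⟨_, (Int.cast_sub _ _).symm⟩
      choose z hz using h3
      refine ⟨ws z (ex S m) - xi (iv a : Nb Q w v D) γ, ?_⟩
      rw [EE_same, LinearMap.sub_apply, eu_bas, Int.cast_sub, sub_smul, funext hz]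
      congr 2
      simp [ws]
    choose n hn using h1
    exact ⟨n, hn⟩

theorem glRel {φ : J → G} {γ : G} (hφ : ∀ j, Const w v D 1 (φ j)) (hγ : Const w v D 1 γ) :
    GlRel (Sigma.fst : Bas Q v → Fin Q.n) (EE (w := w) (D := D) φ γ) := by
  intro a b c d hab hcd
  have hZ : (Zc φ γ (iv a) : OpQ Q w v D J) = Zc φ γ (iv b) := by
    rw [Zc, Zc, hγ (iv a) (iv b) rfl rfl hab]
    congr 2
    funext g
    simp only [cT, fun j => hφ j (iv a) (iv b) rfl rfl hab]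
  have hb := h2.brk rad (Or.inl rfl) (iv a) (iv b) (iv c) (iv d) ⟨hab, rfl, Or.inr ⟨rfl, rfl⟩⟩
    ⟨hcd, rfl, Or.inr ⟨rfl, rfl⟩⟩
  have h3 : Commute (lie (J := J) rad (iv a : Nb Q w v D) (iv b))
      (if c = d then Zc φ γ (iv c) else 0) := by
    split_ifs
    exacts [lie_Zc h2 _ _ _ _ _, Commute.zero_right _]
  have h4 : Commute (lie (J := J) rad (iv c : Nb Q w v D) (iv d))
      (if a = b then Zc φ γ (iv a) else 0) := by
    split_ifs
    exacts [lie_Zc h2 _ _ _ _ _, Commute.zero_right _]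
  have h5 : Commute (if a = b then Zc φ γ (iv a : Nb Q w v D) else 0)
      (if c = d then Zc φ γ (iv c) else 0) := by
    split_ifs
    exacts [Zc_Zc _ _ _ _, Commute.zero_right _, Commute.zero_left _, Commute.zero_right _]
  simp only [Sum.inr.injEq, Sum.inl.injEq] at hb
  have h6 : ((if b = c then EE φ γ a d else 0) - if d = a then EE φ γ c b else 0 : OpQ Q w v D J) =
      (if b = c then lie rad (iv a) (iv d) else 0) - if d = a then lie rad (iv c) (iv b) else 0 := by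
    rw [EE_eq h2, EE_eq h2]
    by_cases hbc : b = c
    · subst hbc
      by_cases hda : d = a
      · subst hda
        simp only [if_true, hZ]
        abel
      · simp only [if_true, if_neg hda, if_neg (Ne.symm hda), sub_zero]
    · simp only [if_neg hbc, if_neg (Ne.symm hbc), sub_zero]
  rw [h6, ← hb, EE_eq h2, EE_eq h2, sub_mul, sub_mul, mul_sub, mul_sub, mul_sub, mul_sub, h3.eq,
    h4.eq, h5.eq]
  abel

theorem EE_gn (φ : J → G) (γ : G) (a b : Bas Q v) (r : Subtype (RootP Q v)) :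
    Commute (EE φ γ a b : OpQ Q w v D J) (gn (gc r)) ∧
      Commute (EE φ γ a b : OpQ Q w v D J) (dr (gc r)) := by
  by_cases h : a = b
  · subst h
    rw [EE_same]
    exact ⟨(eu_gn (cE_gc _ _ _)).sub_left ((Commute.one_left _).smul_left _),
      (eu_dr (cE_gc _ _ _)).sub_left ((Commute.one_left _).smul_left _)⟩
  · rw [EE_ne _ _ _ _ h]
    exact ⟨lie_gn h2 _ _ (alG_gc r), lie_dr h2 _ _ (alG_gc r)⟩

theorem car (φ : J → G) (γ : G) : Car (RootP Q v) (EE (w := w) (D := D) φ γ)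
    (fun r => gn (gc r)) fun r => dr (gc r) := by
  refine ⟨fun r s => ?_, fun r s => ?_, fun r s => ?_, fun a b r => (EE_gn h2 φ γ a b r).1.eq,
    fun a b r => (EE_gn h2 φ γ a b r).2.eq⟩
  · rw [gn_mul_gn, sg_gc, sg_true_smul]
  · rw [dr_mul_dr, sg_gc, sg_true_smul]
  · rw [dr_mul_gn, add_right_comm, sg_gc, sg_true_smul, neg_add_cancel, zero_add]
    simp only [gc_inj]

theorem lie_EE (φ : J → G) (γ : G) {a b : Nb Q w v D} (h : offT a b) {c d : Bas Q v}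
    (hcd : c.1 = d.1) : Commute (lie rad a b) (EE φ γ c d : OpQ Q w v D J) := by
  rw [EE_eq h2]
  refine Commute.sub_right ?_ ?_
  · have hb := h2.brk rad (Or.inl rfl) a b (iv c) (iv d)
      ⟨h.2.1, h.2.2.1.trans h.2.2.2.symm, Or.inl h.2.2.1⟩ ⟨hcd, rfl, Or.inr ⟨rfl, rfl⟩⟩
    rw [if_neg fun e => by simpa [e, blk] using h.2.2.2,
      if_neg fun e => by simpa [← e, blk] using h.2.2.1, sub_zero, sub_eq_zero] at hb
    exact hb
  · split_ifs
    exacts [lie_Zc h2 _ _ _ _ _, Commute.zero_right _]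

theorem mem_invT {f : J → MvPolynomial (Ix Q w v D J) ℂ} {x : Sp (Ix Q w v D J) (Ix Q w v D J)} :
    x ∈ InvT f ↔ ∀ a b, offT a b → lie rad a b x ∈ rel f := by
  simp only [InvT, Submodule.mem_iInf, Submodule.mem_comap]
  exact forall₃_congr fun a b h => by rw [h2.radT a b h.2.2.1 h.2.2.2]

theorem inv_mem {f : J → MvPolynomial (Ix Q w v D J) ℂ} {L : OpQ Q w v D J}
    (hc : ∀ a b, offT a b → Commute (lie rad a b) L) (hL : ∀ x ∈ rel f, L x ∈ rel f)
    {x : Sp (Ix Q w v D J) (Ix Q w v D J)} (hx : x ∈ InvT f) : L x ∈ InvT f := by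
  rw [mem_invT h2] at hx ⊢
  intro a b h
  rw [← Module.End.mul_apply, (hc a b h).eq]
  exact hL _ (hx a b h)

end Pool.Agent.MP_8be872_ag.H94
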